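import Mathlib
import Pool.Agent.Q39.MF.Final

set_option autoImplicit false

namespace Pool.Agent.Results.MP_3c4aa6_nt.PositiveDimension
open Filter Asymptotics MeasureTheory Pool.Agent.Q39.MF

/-- The Weyl sum `S_d(x; N) = ∑_{n=1}^N exp(2πi(x_1 n + x_2 n^2 + ... + x_d n^d))`; the coordinate
`x_{j+1}` of the problem is `x j` for `j : Fin d`. -/
noncomputable def weylSum {d : ℕ} (x : Fin d → ℝ) (N : ℕ) : ℂ :=
  ∑ n ∈ Finset.Icc 1 N,
    Complex.exp (2 * Real.pi * Complex.I * ((∑ j : Fin d, x j * (n : ℝ) ^ ((j : ℕ) + 1) : ℝ) : ℂ))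

/-- The growth exponent `σ(x)` as a limit superior (an extended real). -/
noncomputable def sigma {d : ℕ} (x : Fin d → ℝ) : EReal :=
  limsup (fun N : ℕ => ((Real.log ‖weylSum x N‖ / Real.log N : ℝ) : EReal)) atTop

/-- The growth exponent `σ(x)` as an infimum. -/
noncomputable def sigmaInf {d : ℕ} (x : Fin d → ℝ) : ℝ :=
  sInf {s : ℝ | 0 < s ∧ (fun N : ℕ => ‖weylSum x N‖) =O[atTop] fun N : ℕ => (N : ℝ) ^ s}

/-- The level set `Ω_α^{(d)}`: points of `[0,1)^d` where both forms of the growth exponent are `α`. -/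
def levelSet (d : ℕ) (α : ℝ) : Set (Fin d → ℝ) :=
  {x | (∀ i, x i ∈ Set.Ico (0 : ℝ) 1) ∧ sigma x = (α : EReal) ∧ sigmaInf x = α}

/-- the embedding of the line as the second coordinate axis -/
def emb (d : ℕ) (y : ℝ) : Fin d → ℝ := fun i => if (i : ℕ) = 1 then y else 0

lemma weyl_emb (d : ℕ) (hd : 2 ≤ d) (y : ℝ) (N : ℕ) : ‖weylSum (emb d y) N‖ = SS y N := by
  unfold weylSum SS
  congr 1
  have h1 : ∀ n : ℕ, ∑ j : Fin d, emb d y j * (n : ℝ) ^ ((j : ℕ) + 1) = y * (n : ℝ) ^ 2 := by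
    intro n
    rw [Finset.sum_eq_single (⟨1, by omega⟩ : Fin d)]
    · simp [emb]
    · intro j _ hj
      have : (j : ℕ) ≠ 1 := fun h => hj (Fin.ext h)
      simp [emb, this]
    · intro h
      exact absurd (Finset.mem_univ _) h
  have h2 : ∀ n : ℕ, Complex.exp (2 * Real.pi * Complex.I *
      ((∑ j : Fin d, emb d y j * (n : ℝ) ^ ((j : ℕ) + 1) : ℝ) : ℂ)) =
      Pool.Agent.H520R3.e (y * (n : ℝ) ^ 2) := by
    intro n
    rw [h1]
    unfold Pool.Agent.H520R3.e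
    congr 1
    push_cast
    ring
  induction N with
  | zero => simp
  | succ N ih =>
    rw [Finset.sum_Icc_succ_top (by omega), Finset.sum_range_succ, ih, h2]
    push_cast
    rfl

lemma emb_mem {d : ℕ} (hd : 2 ≤ d) {τ t : ℝ} (hτ : 3 < τ) (ht : t ∈ Set.Ico (0 : ℝ) 1) :
    emb d (yy τ t) ∈ levelSet d (1 - 1 / τ) := by
  refine ⟨fun i => ?_, ?_, ?_⟩
  · unfold emb
    split_ifs
    · exact yy_mem hτ ht
    · exact ⟨le_rfl, one_pos⟩
  · unfold sigma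
    simp_rw [weyl_emb d hd]
    exact yy_sup hτ ht
  · unfold sigmaInf
    simp_rw [weyl_emb d hd]
    exact yy_inf hτ ht

theorem pos (d : ℕ) (hd : 2 ≤ d) (α : ℝ) (hα : α ∈ Set.Ioo (2 / 3 : ℝ) 1) :
    0 < dimH (levelSet d α) := by
  obtain ⟨h1, h2⟩ := hα
  set τ : ℝ := 1 / (1 - α) with hτ
  have hτ3 : 3 < τ := by
    rw [hτ, lt_div_iff₀ (by linarith)]
    linarith
  have hα' : 1 - 1 / τ = α := by
    rw [hτ, one_div_one_div]
    ring
  have hsub : yy τ '' Set.Ico (0 : ℝ) 1 ⊆ (fun x : Fin d → ℝ => x ⟨1, by omega⟩) '' levelSet d α := by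
    rintro _ ⟨t, ht, rfl⟩
    refine ⟨emb d (yy τ t), ?_, by simp [emb]⟩
    rw [← hα']
    exact emb_mem hd hτ3 ht
  calc 0 < dimH (yy τ '' Set.Ico (0 : ℝ) 1) := dim_pos hτ3
    _ ≤ dimH ((fun x : Fin d → ℝ => x ⟨1, by omega⟩) '' levelSet d α) := dimH_mono hsub
    _ ≤ dimH (levelSet d α) := (LipschitzWith.eval _).dimH_image_le _

/-- For every `d ≥ 2` and every `α ∈ (2/3, 1)` the level set `Ω_α^{(d)}` has positive Hausdorff
dimension; in particular some measurable `A ⊆ [0,1]` of positive Lebesgue measure consists of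
exponents `α` with `dim Ω_α^{(d)} > 0`. -/
theorem result : ∀ d : ℕ, 2 ≤ d →
    (∀ α ∈ Set.Ioo (2 / 3 : ℝ) 1, 0 < dimH (levelSet d α)) ∧
    ∃ A : Set ℝ, A ⊆ Set.Icc 0 1 ∧ MeasurableSet A ∧ 0 < volume A ∧
      ∀ α ∈ A, 0 < dimH (levelSet d α) := by
  intro d hd
  refine ⟨pos d hd, Set.Ioo (2 / 3) 1, ?_, measurableSet_Ioo, ?_, pos d hd⟩
  · intro x hx
    exact ⟨by linarith [hx.1], hx.2.le⟩
  · rw [Real.volume_Ioo]
    norm_num

end Pool.Agent.Results.MP_3c4aa6_nt.PositiveDimension
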